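import Pool.Agent.Helper5.KL.D14.Table
import Pool.Agent.Helper5.KL.Cls

/-! # Kernel checks (generated), helper5, project KL -/

namespace H5KL

theorem c2_81 : chkR 2187 12 1094 14797 TT0 TT2 (own 2) (Ls 2) 81 9 = true := by decide +kernel

theorem c2_90 : chkR 2187 12 1094 14797 TT0 TT2 (own 2) (Ls 2) 90 9 = true := by decide +kernel

theorem c2_99 : chkR 2187 12 1094 14797 TT0 TT2 (own 2) (Ls 2) 99 9 = true := by decide +kernel

theorem c2_108 : chkR 2187 12 1094 14797 TT0 TT2 (own 2) (Ls 2) 108 9 = true := by decide +kernel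

theorem c2_117 : chkR 2187 12 1094 14797 TT0 TT2 (own 2) (Ls 2) 117 9 = true := by decide +kernel

theorem c2_126 : chkR 2187 12 1094 14797 TT0 TT2 (own 2) (Ls 2) 126 9 = true := by decide +kernel

theorem c2_135 : chkR 2187 12 1094 14797 TT0 TT2 (own 2) (Ls 2) 135 9 = true := by decide +kernel

theorem c2_144 : chkR 2187 12 1094 14797 TT0 TT2 (own 2) (Ls 2) 144 9 = true := by decide +kernel

theorem c2_153 : chkR 2187 12 1094 14797 TT0 TT2 (own 2) (Ls 2) 153 9 = true := by decide +kernel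

theorem e2_1 (u : ℕ) (h1 : 81 ≤ u) (h2 : u < 162) :
    chk 2187 12 1094 14797 TT0 TT2 (own 2) (Ls 2) u = true := by
  by_cases g0 : u < 90
  · exact chkR_spec _ _ _ _ _ _ _ _ _ _ c2_81 u (by omega) (by omega)
  by_cases g1 : u < 99
  · exact chkR_spec _ _ _ _ _ _ _ _ _ _ c2_90 u (by omega) (by omega)
  by_cases g2 : u < 108
  · exact chkR_spec _ _ _ _ _ _ _ _ _ _ c2_99 u (by omega) (by omega)
  by_cases g3 : u < 117
  · exact chkR_spec _ _ _ _ _ _ _ _ _ _ c2_108 u (by omega) (by omega)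
  by_cases g4 : u < 126
  · exact chkR_spec _ _ _ _ _ _ _ _ _ _ c2_117 u (by omega) (by omega)
  by_cases g5 : u < 135
  · exact chkR_spec _ _ _ _ _ _ _ _ _ _ c2_126 u (by omega) (by omega)
  by_cases g6 : u < 144
  · exact chkR_spec _ _ _ _ _ _ _ _ _ _ c2_135 u (by omega) (by omega)
  by_cases g7 : u < 153
  · exact chkR_spec _ _ _ _ _ _ _ _ _ _ c2_144 u (by omega) (by omega)
  exact chkR_spec _ _ _ _ _ _ _ _ _ _ c2_153 u (by omega) (by omega)

end H5KL
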