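import Pool.Agent.Helper5.KL.D14.Table
import Pool.Agent.Helper5.KL.Cls

/-! # Kernel checks (generated), helper5, project KL -/

namespace H5KL

theorem c2_486 : chkR 2187 12 1094 14797 TT0 TT2 (own 2) (Ls 2) 486 9 = true := by decide +kernel

theorem c2_495 : chkR 2187 12 1094 14797 TT0 TT2 (own 2) (Ls 2) 495 9 = true := by decide +kernel

theorem c2_504 : chkR 2187 12 1094 14797 TT0 TT2 (own 2) (Ls 2) 504 9 = true := by decide +kernel

theorem c2_513 : chkR 2187 12 1094 14797 TT0 TT2 (own 2) (Ls 2) 513 9 = true := by decide +kernel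

theorem c2_522 : chkR 2187 12 1094 14797 TT0 TT2 (own 2) (Ls 2) 522 9 = true := by decide +kernel

theorem c2_531 : chkR 2187 12 1094 14797 TT0 TT2 (own 2) (Ls 2) 531 9 = true := by decide +kernel

theorem c2_540 : chkR 2187 12 1094 14797 TT0 TT2 (own 2) (Ls 2) 540 9 = true := by decide +kernel

theorem c2_549 : chkR 2187 12 1094 14797 TT0 TT2 (own 2) (Ls 2) 549 9 = true := by decide +kernel

theorem c2_558 : chkR 2187 12 1094 14797 TT0 TT2 (own 2) (Ls 2) 558 9 = true := by decide +kernel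

theorem e2_6 (u : ℕ) (h1 : 486 ≤ u) (h2 : u < 567) :
    chk 2187 12 1094 14797 TT0 TT2 (own 2) (Ls 2) u = true := by
  by_cases g0 : u < 495
  · exact chkR_spec _ _ _ _ _ _ _ _ _ _ c2_486 u (by omega) (by omega)
  by_cases g1 : u < 504
  · exact chkR_spec _ _ _ _ _ _ _ _ _ _ c2_495 u (by omega) (by omega)
  by_cases g2 : u < 513
  · exact chkR_spec _ _ _ _ _ _ _ _ _ _ c2_504 u (by omega) (by omega)
  by_cases g3 : u < 522
  · exact chkR_spec _ _ _ _ _ _ _ _ _ _ c2_513 u (by omega) (by omega)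
  by_cases g4 : u < 531
  · exact chkR_spec _ _ _ _ _ _ _ _ _ _ c2_522 u (by omega) (by omega)
  by_cases g5 : u < 540
  · exact chkR_spec _ _ _ _ _ _ _ _ _ _ c2_531 u (by omega) (by omega)
  by_cases g6 : u < 549
  · exact chkR_spec _ _ _ _ _ _ _ _ _ _ c2_540 u (by omega) (by omega)
  by_cases g7 : u < 558
  · exact chkR_spec _ _ _ _ _ _ _ _ _ _ c2_549 u (by omega) (by omega)
  exact chkR_spec _ _ _ _ _ _ _ _ _ _ c2_558 u (by omega) (by omega)

end H5KL
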