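import Pool.Agent.Helper5.KL.D14.Table
import Pool.Agent.Helper5.KL.Cls

/-! # Kernel checks (generated), helper5, project KL -/

namespace H5KL

theorem c2_567 : chkR 2187 12 1094 14797 TT0 TT2 (own 2) (Ls 2) 567 9 = true := by decide +kernel

theorem c2_576 : chkR 2187 12 1094 14797 TT0 TT2 (own 2) (Ls 2) 576 9 = true := by decide +kernel

theorem c2_585 : chkR 2187 12 1094 14797 TT0 TT2 (own 2) (Ls 2) 585 9 = true := by decide +kernel

theorem c2_594 : chkR 2187 12 1094 14797 TT0 TT2 (own 2) (Ls 2) 594 9 = true := by decide +kernel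

theorem c2_603 : chkR 2187 12 1094 14797 TT0 TT2 (own 2) (Ls 2) 603 9 = true := by decide +kernel

theorem c2_612 : chkR 2187 12 1094 14797 TT0 TT2 (own 2) (Ls 2) 612 9 = true := by decide +kernel

theorem c2_621 : chkR 2187 12 1094 14797 TT0 TT2 (own 2) (Ls 2) 621 9 = true := by decide +kernel

theorem c2_630 : chkR 2187 12 1094 14797 TT0 TT2 (own 2) (Ls 2) 630 9 = true := by decide +kernel

theorem c2_639 : chkR 2187 12 1094 14797 TT0 TT2 (own 2) (Ls 2) 639 9 = true := by decide +kernel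

theorem e2_7 (u : ℕ) (h1 : 567 ≤ u) (h2 : u < 648) :
    chk 2187 12 1094 14797 TT0 TT2 (own 2) (Ls 2) u = true := by
  by_cases g0 : u < 576
  · exact chkR_spec _ _ _ _ _ _ _ _ _ _ c2_567 u (by omega) (by omega)
  by_cases g1 : u < 585
  · exact chkR_spec _ _ _ _ _ _ _ _ _ _ c2_576 u (by omega) (by omega)
  by_cases g2 : u < 594
  · exact chkR_spec _ _ _ _ _ _ _ _ _ _ c2_585 u (by omega) (by omega)
  by_cases g3 : u < 603
  · exact chkR_spec _ _ _ _ _ _ _ _ _ _ c2_594 u (by omega) (by omega)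
  by_cases g4 : u < 612
  · exact chkR_spec _ _ _ _ _ _ _ _ _ _ c2_603 u (by omega) (by omega)
  by_cases g5 : u < 621
  · exact chkR_spec _ _ _ _ _ _ _ _ _ _ c2_612 u (by omega) (by omega)
  by_cases g6 : u < 630
  · exact chkR_spec _ _ _ _ _ _ _ _ _ _ c2_621 u (by omega) (by omega)
  by_cases g7 : u < 639
  · exact chkR_spec _ _ _ _ _ _ _ _ _ _ c2_630 u (by omega) (by omega)
  exact chkR_spec _ _ _ _ _ _ _ _ _ _ c2_639 u (by omega) (by omega)

end H5KL
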