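import Pool.Agent.Helper5.KL.D14.Table
import Pool.Agent.Helper5.KL.Cls

/-! # Kernel checks (generated), helper5, project KL -/

namespace H5KL

theorem c5_162 : chkR 2187 12 1094 14797 TT0 TT2 (own 5) (Ls 5) 162 9 = true := by decide +kernel

theorem c5_171 : chkR 2187 12 1094 14797 TT0 TT2 (own 5) (Ls 5) 171 9 = true := by decide +kernel

theorem c5_180 : chkR 2187 12 1094 14797 TT0 TT2 (own 5) (Ls 5) 180 9 = true := by decide +kernel

theorem c5_189 : chkR 2187 12 1094 14797 TT0 TT2 (own 5) (Ls 5) 189 9 = true := by decide +kernel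

theorem c5_198 : chkR 2187 12 1094 14797 TT0 TT2 (own 5) (Ls 5) 198 9 = true := by decide +kernel

theorem c5_207 : chkR 2187 12 1094 14797 TT0 TT2 (own 5) (Ls 5) 207 9 = true := by decide +kernel

theorem c5_216 : chkR 2187 12 1094 14797 TT0 TT2 (own 5) (Ls 5) 216 9 = true := by decide +kernel

theorem c5_225 : chkR 2187 12 1094 14797 TT0 TT2 (own 5) (Ls 5) 225 9 = true := by decide +kernel

theorem c5_234 : chkR 2187 12 1094 14797 TT0 TT2 (own 5) (Ls 5) 234 9 = true := by decide +kernel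

theorem e5_2 (u : ℕ) (h1 : 162 ≤ u) (h2 : u < 243) :
    chk 2187 12 1094 14797 TT0 TT2 (own 5) (Ls 5) u = true := by
  by_cases g0 : u < 171
  · exact chkR_spec _ _ _ _ _ _ _ _ _ _ c5_162 u (by omega) (by omega)
  by_cases g1 : u < 180
  · exact chkR_spec _ _ _ _ _ _ _ _ _ _ c5_171 u (by omega) (by omega)
  by_cases g2 : u < 189
  · exact chkR_spec _ _ _ _ _ _ _ _ _ _ c5_180 u (by omega) (by omega)
  by_cases g3 : u < 198
  · exact chkR_spec _ _ _ _ _ _ _ _ _ _ c5_189 u (by omega) (by omega)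
  by_cases g4 : u < 207
  · exact chkR_spec _ _ _ _ _ _ _ _ _ _ c5_198 u (by omega) (by omega)
  by_cases g5 : u < 216
  · exact chkR_spec _ _ _ _ _ _ _ _ _ _ c5_207 u (by omega) (by omega)
  by_cases g6 : u < 225
  · exact chkR_spec _ _ _ _ _ _ _ _ _ _ c5_216 u (by omega) (by omega)
  by_cases g7 : u < 234
  · exact chkR_spec _ _ _ _ _ _ _ _ _ _ c5_225 u (by omega) (by omega)
  exact chkR_spec _ _ _ _ _ _ _ _ _ _ c5_234 u (by omega) (by omega)

end H5KL
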