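import Pool.Agent.Helper5.KL.D14.Table
import Pool.Agent.Helper5.KL.Cls

/-! # Kernel checks (generated), helper5, project KL -/

namespace H5KL

theorem c5_405 : chkR 2187 12 1094 14797 TT0 TT2 (own 5) (Ls 5) 405 9 = true := by decide +kernel

theorem c5_414 : chkR 2187 12 1094 14797 TT0 TT2 (own 5) (Ls 5) 414 9 = true := by decide +kernel

theorem c5_423 : chkR 2187 12 1094 14797 TT0 TT2 (own 5) (Ls 5) 423 9 = true := by decide +kernel

theorem c5_432 : chkR 2187 12 1094 14797 TT0 TT2 (own 5) (Ls 5) 432 9 = true := by decide +kernel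

theorem c5_441 : chkR 2187 12 1094 14797 TT0 TT2 (own 5) (Ls 5) 441 9 = true := by decide +kernel

theorem c5_450 : chkR 2187 12 1094 14797 TT0 TT2 (own 5) (Ls 5) 450 9 = true := by decide +kernel

theorem c5_459 : chkR 2187 12 1094 14797 TT0 TT2 (own 5) (Ls 5) 459 9 = true := by decide +kernel

theorem c5_468 : chkR 2187 12 1094 14797 TT0 TT2 (own 5) (Ls 5) 468 9 = true := by decide +kernel

theorem c5_477 : chkR 2187 12 1094 14797 TT0 TT2 (own 5) (Ls 5) 477 9 = true := by decide +kernel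

theorem e5_5 (u : ℕ) (h1 : 405 ≤ u) (h2 : u < 486) :
    chk 2187 12 1094 14797 TT0 TT2 (own 5) (Ls 5) u = true := by
  by_cases g0 : u < 414
  · exact chkR_spec _ _ _ _ _ _ _ _ _ _ c5_405 u (by omega) (by omega)
  by_cases g1 : u < 423
  · exact chkR_spec _ _ _ _ _ _ _ _ _ _ c5_414 u (by omega) (by omega)
  by_cases g2 : u < 432
  · exact chkR_spec _ _ _ _ _ _ _ _ _ _ c5_423 u (by omega) (by omega)
  by_cases g3 : u < 441
  · exact chkR_spec _ _ _ _ _ _ _ _ _ _ c5_432 u (by omega) (by omega)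
  by_cases g4 : u < 450
  · exact chkR_spec _ _ _ _ _ _ _ _ _ _ c5_441 u (by omega) (by omega)
  by_cases g5 : u < 459
  · exact chkR_spec _ _ _ _ _ _ _ _ _ _ c5_450 u (by omega) (by omega)
  by_cases g6 : u < 468
  · exact chkR_spec _ _ _ _ _ _ _ _ _ _ c5_459 u (by omega) (by omega)
  by_cases g7 : u < 477
  · exact chkR_spec _ _ _ _ _ _ _ _ _ _ c5_468 u (by omega) (by omega)
  exact chkR_spec _ _ _ _ _ _ _ _ _ _ c5_477 u (by omega) (by omega)

end H5KL
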