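import Pool.Agent.Helper5.KL.D14.Table
import Pool.Agent.Helper5.KL.Cls

/-! # Kernel checks (generated), helper5, project KL -/

namespace H5KL

theorem c6_243 : chkR 2187 12 1094 14797 TT0 TT2 (own 6) (Ls 6) 243 9 = true := by decide +kernel

theorem c6_252 : chkR 2187 12 1094 14797 TT0 TT2 (own 6) (Ls 6) 252 9 = true := by decide +kernel

theorem c6_261 : chkR 2187 12 1094 14797 TT0 TT2 (own 6) (Ls 6) 261 9 = true := by decide +kernel

theorem c6_270 : chkR 2187 12 1094 14797 TT0 TT2 (own 6) (Ls 6) 270 9 = true := by decide +kernel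

theorem c6_279 : chkR 2187 12 1094 14797 TT0 TT2 (own 6) (Ls 6) 279 9 = true := by decide +kernel

theorem c6_288 : chkR 2187 12 1094 14797 TT0 TT2 (own 6) (Ls 6) 288 9 = true := by decide +kernel

theorem c6_297 : chkR 2187 12 1094 14797 TT0 TT2 (own 6) (Ls 6) 297 9 = true := by decide +kernel

theorem c6_306 : chkR 2187 12 1094 14797 TT0 TT2 (own 6) (Ls 6) 306 9 = true := by decide +kernel

theorem c6_315 : chkR 2187 12 1094 14797 TT0 TT2 (own 6) (Ls 6) 315 9 = true := by decide +kernel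

theorem e6_3 (u : ℕ) (h1 : 243 ≤ u) (h2 : u < 324) :
    chk 2187 12 1094 14797 TT0 TT2 (own 6) (Ls 6) u = true := by
  by_cases g0 : u < 252
  · exact chkR_spec _ _ _ _ _ _ _ _ _ _ c6_243 u (by omega) (by omega)
  by_cases g1 : u < 261
  · exact chkR_spec _ _ _ _ _ _ _ _ _ _ c6_252 u (by omega) (by omega)
  by_cases g2 : u < 270
  · exact chkR_spec _ _ _ _ _ _ _ _ _ _ c6_261 u (by omega) (by omega)
  by_cases g3 : u < 279
  · exact chkR_spec _ _ _ _ _ _ _ _ _ _ c6_270 u (by omega) (by omega)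
  by_cases g4 : u < 288
  · exact chkR_spec _ _ _ _ _ _ _ _ _ _ c6_279 u (by omega) (by omega)
  by_cases g5 : u < 297
  · exact chkR_spec _ _ _ _ _ _ _ _ _ _ c6_288 u (by omega) (by omega)
  by_cases g6 : u < 306
  · exact chkR_spec _ _ _ _ _ _ _ _ _ _ c6_297 u (by omega) (by omega)
  by_cases g7 : u < 315
  · exact chkR_spec _ _ _ _ _ _ _ _ _ _ c6_306 u (by omega) (by omega)
  exact chkR_spec _ _ _ _ _ _ _ _ _ _ c6_315 u (by omega) (by omega)

end H5KL
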