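import Pool.Agent.Helper5.KL.D14.Table
import Pool.Agent.Helper5.KL.Cls

/-! # Kernel checks (generated), helper5, project KL -/

namespace H5KL

theorem c6_648 : chkR 2187 12 1094 14797 TT0 TT2 (own 6) (Ls 6) 648 9 = true := by decide +kernel

theorem c6_657 : chkR 2187 12 1094 14797 TT0 TT2 (own 6) (Ls 6) 657 9 = true := by decide +kernel

theorem c6_666 : chkR 2187 12 1094 14797 TT0 TT2 (own 6) (Ls 6) 666 9 = true := by decide +kernel

theorem c6_675 : chkR 2187 12 1094 14797 TT0 TT2 (own 6) (Ls 6) 675 9 = true := by decide +kernel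

theorem c6_684 : chkR 2187 12 1094 14797 TT0 TT2 (own 6) (Ls 6) 684 9 = true := by decide +kernel

theorem c6_693 : chkR 2187 12 1094 14797 TT0 TT2 (own 6) (Ls 6) 693 9 = true := by decide +kernel

theorem c6_702 : chkR 2187 12 1094 14797 TT0 TT2 (own 6) (Ls 6) 702 9 = true := by decide +kernel

theorem c6_711 : chkR 2187 12 1094 14797 TT0 TT2 (own 6) (Ls 6) 711 9 = true := by decide +kernel

theorem c6_720 : chkR 2187 12 1094 14797 TT0 TT2 (own 6) (Ls 6) 720 9 = true := by decide +kernel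

theorem e6_8 (u : ℕ) (h1 : 648 ≤ u) (h2 : u < 729) :
    chk 2187 12 1094 14797 TT0 TT2 (own 6) (Ls 6) u = true := by
  by_cases g0 : u < 657
  · exact chkR_spec _ _ _ _ _ _ _ _ _ _ c6_648 u (by omega) (by omega)
  by_cases g1 : u < 666
  · exact chkR_spec _ _ _ _ _ _ _ _ _ _ c6_657 u (by omega) (by omega)
  by_cases g2 : u < 675
  · exact chkR_spec _ _ _ _ _ _ _ _ _ _ c6_666 u (by omega) (by omega)
  by_cases g3 : u < 684
  · exact chkR_spec _ _ _ _ _ _ _ _ _ _ c6_675 u (by omega) (by omega)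
  by_cases g4 : u < 693
  · exact chkR_spec _ _ _ _ _ _ _ _ _ _ c6_684 u (by omega) (by omega)
  by_cases g5 : u < 702
  · exact chkR_spec _ _ _ _ _ _ _ _ _ _ c6_693 u (by omega) (by omega)
  by_cases g6 : u < 711
  · exact chkR_spec _ _ _ _ _ _ _ _ _ _ c6_702 u (by omega) (by omega)
  by_cases g7 : u < 720
  · exact chkR_spec _ _ _ _ _ _ _ _ _ _ c6_711 u (by omega) (by omega)
  exact chkR_spec _ _ _ _ _ _ _ _ _ _ c6_720 u (by omega) (by omega)

end H5KL
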