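import Pool.Agent.Helper5.KL.D14.Table
import Pool.Agent.Helper5.KL.Cls

/-! # Kernel checks (generated), helper5, project KL -/

namespace H5KL

theorem c8_0 : chkR 2187 12 1094 14797 TT0 TT2 (own 8) (Ls 8) 0 9 = true := by decide +kernel

theorem c8_9 : chkR 2187 12 1094 14797 TT0 TT2 (own 8) (Ls 8) 9 9 = true := by decide +kernel

theorem c8_18 : chkR 2187 12 1094 14797 TT0 TT2 (own 8) (Ls 8) 18 9 = true := by decide +kernel

theorem c8_27 : chkR 2187 12 1094 14797 TT0 TT2 (own 8) (Ls 8) 27 9 = true := by decide +kernel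

theorem c8_36 : chkR 2187 12 1094 14797 TT0 TT2 (own 8) (Ls 8) 36 9 = true := by decide +kernel

theorem c8_45 : chkR 2187 12 1094 14797 TT0 TT2 (own 8) (Ls 8) 45 9 = true := by decide +kernel

theorem c8_54 : chkR 2187 12 1094 14797 TT0 TT2 (own 8) (Ls 8) 54 9 = true := by decide +kernel

theorem c8_63 : chkR 2187 12 1094 14797 TT0 TT2 (own 8) (Ls 8) 63 9 = true := by decide +kernel

theorem c8_72 : chkR 2187 12 1094 14797 TT0 TT2 (own 8) (Ls 8) 72 9 = true := by decide +kernel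

theorem e8_0 (u : ℕ) (h1 : 0 ≤ u) (h2 : u < 81) :
    chk 2187 12 1094 14797 TT0 TT2 (own 8) (Ls 8) u = true := by
  by_cases g0 : u < 9
  · exact chkR_spec _ _ _ _ _ _ _ _ _ _ c8_0 u (by omega) (by omega)
  by_cases g1 : u < 18
  · exact chkR_spec _ _ _ _ _ _ _ _ _ _ c8_9 u (by omega) (by omega)
  by_cases g2 : u < 27
  · exact chkR_spec _ _ _ _ _ _ _ _ _ _ c8_18 u (by omega) (by omega)
  by_cases g3 : u < 36
  · exact chkR_spec _ _ _ _ _ _ _ _ _ _ c8_27 u (by omega) (by omega)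
  by_cases g4 : u < 45
  · exact chkR_spec _ _ _ _ _ _ _ _ _ _ c8_36 u (by omega) (by omega)
  by_cases g5 : u < 54
  · exact chkR_spec _ _ _ _ _ _ _ _ _ _ c8_45 u (by omega) (by omega)
  by_cases g6 : u < 63
  · exact chkR_spec _ _ _ _ _ _ _ _ _ _ c8_54 u (by omega) (by omega)
  by_cases g7 : u < 72
  · exact chkR_spec _ _ _ _ _ _ _ _ _ _ c8_63 u (by omega) (by omega)
  exact chkR_spec _ _ _ _ _ _ _ _ _ _ c8_72 u (by omega) (by omega)

end H5KL
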