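import Pool.Agent.Helper5.KL.D14.Table
import Pool.Agent.Helper5.KL.Cls

/-! # Kernel checks (generated), helper5, project KL -/

namespace H5KL

theorem c8_324 : chkR 2187 12 1094 14797 TT0 TT2 (own 8) (Ls 8) 324 9 = true := by decide +kernel

theorem c8_333 : chkR 2187 12 1094 14797 TT0 TT2 (own 8) (Ls 8) 333 9 = true := by decide +kernel

theorem c8_342 : chkR 2187 12 1094 14797 TT0 TT2 (own 8) (Ls 8) 342 9 = true := by decide +kernel

theorem c8_351 : chkR 2187 12 1094 14797 TT0 TT2 (own 8) (Ls 8) 351 9 = true := by decide +kernel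

theorem c8_360 : chkR 2187 12 1094 14797 TT0 TT2 (own 8) (Ls 8) 360 9 = true := by decide +kernel

theorem c8_369 : chkR 2187 12 1094 14797 TT0 TT2 (own 8) (Ls 8) 369 9 = true := by decide +kernel

theorem c8_378 : chkR 2187 12 1094 14797 TT0 TT2 (own 8) (Ls 8) 378 9 = true := by decide +kernel

theorem c8_387 : chkR 2187 12 1094 14797 TT0 TT2 (own 8) (Ls 8) 387 9 = true := by decide +kernel

theorem c8_396 : chkR 2187 12 1094 14797 TT0 TT2 (own 8) (Ls 8) 396 9 = true := by decide +kernel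

theorem e8_4 (u : ℕ) (h1 : 324 ≤ u) (h2 : u < 405) :
    chk 2187 12 1094 14797 TT0 TT2 (own 8) (Ls 8) u = true := by
  by_cases g0 : u < 333
  · exact chkR_spec _ _ _ _ _ _ _ _ _ _ c8_324 u (by omega) (by omega)
  by_cases g1 : u < 342
  · exact chkR_spec _ _ _ _ _ _ _ _ _ _ c8_333 u (by omega) (by omega)
  by_cases g2 : u < 351
  · exact chkR_spec _ _ _ _ _ _ _ _ _ _ c8_342 u (by omega) (by omega)
  by_cases g3 : u < 360
  · exact chkR_spec _ _ _ _ _ _ _ _ _ _ c8_351 u (by omega) (by omega)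
  by_cases g4 : u < 369
  · exact chkR_spec _ _ _ _ _ _ _ _ _ _ c8_360 u (by omega) (by omega)
  by_cases g5 : u < 378
  · exact chkR_spec _ _ _ _ _ _ _ _ _ _ c8_369 u (by omega) (by omega)
  by_cases g6 : u < 387
  · exact chkR_spec _ _ _ _ _ _ _ _ _ _ c8_378 u (by omega) (by omega)
  by_cases g7 : u < 396
  · exact chkR_spec _ _ _ _ _ _ _ _ _ _ c8_387 u (by omega) (by omega)
  exact chkR_spec _ _ _ _ _ _ _ _ _ _ c8_396 u (by omega) (by omega)

end H5KL
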