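import Pool.Agent.Helper5.KL.Main
import Pool.Agent.Helper5.KL.D14.C0_0
import Pool.Agent.Helper5.KL.D14.C0_1
import Pool.Agent.Helper5.KL.D14.C0_2
import Pool.Agent.Helper5.KL.D14.C0_3
import Pool.Agent.Helper5.KL.D14.C0_4
import Pool.Agent.Helper5.KL.D14.C0_5
import Pool.Agent.Helper5.KL.D14.C0_6
import Pool.Agent.Helper5.KL.D14.C0_7
import Pool.Agent.Helper5.KL.D14.C0_8
import Pool.Agent.Helper5.KL.D14.C2_0
import Pool.Agent.Helper5.KL.D14.C2_1
import Pool.Agent.Helper5.KL.D14.C2_2
import Pool.Agent.Helper5.KL.D14.C2_3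
import Pool.Agent.Helper5.KL.D14.C2_4
import Pool.Agent.Helper5.KL.D14.C2_5
import Pool.Agent.Helper5.KL.D14.C2_6
import Pool.Agent.Helper5.KL.D14.C2_7
import Pool.Agent.Helper5.KL.D14.C2_8
import Pool.Agent.Helper5.KL.D14.C3_0
import Pool.Agent.Helper5.KL.D14.C3_1
import Pool.Agent.Helper5.KL.D14.C3_2
import Pool.Agent.Helper5.KL.D14.C3_3
import Pool.Agent.Helper5.KL.D14.C3_4
import Pool.Agent.Helper5.KL.D14.C3_5
import Pool.Agent.Helper5.KL.D14.C3_6
import Pool.Agent.Helper5.KL.D14.C3_7
import Pool.Agent.Helper5.KL.D14.C3_8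
import Pool.Agent.Helper5.KL.D14.C5_0
import Pool.Agent.Helper5.KL.D14.C5_1
import Pool.Agent.Helper5.KL.D14.C5_2
import Pool.Agent.Helper5.KL.D14.C5_3
import Pool.Agent.Helper5.KL.D14.C5_4
import Pool.Agent.Helper5.KL.D14.C5_5
import Pool.Agent.Helper5.KL.D14.C5_6
import Pool.Agent.Helper5.KL.D14.C5_7
import Pool.Agent.Helper5.KL.D14.C5_8
import Pool.Agent.Helper5.KL.D14.C6_0
import Pool.Agent.Helper5.KL.D14.C6_1
import Pool.Agent.Helper5.KL.D14.C6_2
import Pool.Agent.Helper5.KL.D14.C6_3
import Pool.Agent.Helper5.KL.D14.C6_4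
import Pool.Agent.Helper5.KL.D14.C6_5
import Pool.Agent.Helper5.KL.D14.C6_6
import Pool.Agent.Helper5.KL.D14.C6_7
import Pool.Agent.Helper5.KL.D14.C6_8
import Pool.Agent.Helper5.KL.D14.C8_0
import Pool.Agent.Helper5.KL.D14.C8_1
import Pool.Agent.Helper5.KL.D14.C8_2
import Pool.Agent.Helper5.KL.D14.C8_3
import Pool.Agent.Helper5.KL.D14.C8_4
import Pool.Agent.Helper5.KL.D14.C8_5
import Pool.Agent.Helper5.KL.D14.C8_6
import Pool.Agent.Helper5.KL.D14.C8_7
import Pool.Agent.Helper5.KL.D14.C8_8

/-! # All checks (generated), helper5, project KL -/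

namespace H5KL

theorem all0 (u : ℕ) (h : u < 729) : chk 2187 12 1094 14797 TT0 TT2 (own 0) (Ls 0) u = true := by
  by_cases g0 : u < 81
  · exact e0_0 u (by omega) (by omega)
  by_cases g1 : u < 162
  · exact e0_1 u (by omega) (by omega)
  by_cases g2 : u < 243
  · exact e0_2 u (by omega) (by omega)
  by_cases g3 : u < 324
  · exact e0_3 u (by omega) (by omega)
  by_cases g4 : u < 405
  · exact e0_4 u (by omega) (by omega)
  by_cases g5 : u < 486
  · exact e0_5 u (by omega) (by omega)
  by_cases g6 : u < 567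
  · exact e0_6 u (by omega) (by omega)
  by_cases g7 : u < 648
  · exact e0_7 u (by omega) (by omega)
  exact e0_8 u (by omega) (by omega)

theorem all2 (u : ℕ) (h : u < 729) : chk 2187 12 1094 14797 TT0 TT2 (own 2) (Ls 2) u = true := by
  by_cases g0 : u < 81
  · exact e2_0 u (by omega) (by omega)
  by_cases g1 : u < 162
  · exact e2_1 u (by omega) (by omega)
  by_cases g2 : u < 243
  · exact e2_2 u (by omega) (by omega)
  by_cases g3 : u < 324
  · exact e2_3 u (by omega) (by omega)
  by_cases g4 : u < 405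
  · exact e2_4 u (by omega) (by omega)
  by_cases g5 : u < 486
  · exact e2_5 u (by omega) (by omega)
  by_cases g6 : u < 567
  · exact e2_6 u (by omega) (by omega)
  by_cases g7 : u < 648
  · exact e2_7 u (by omega) (by omega)
  exact e2_8 u (by omega) (by omega)

theorem all3 (u : ℕ) (h : u < 729) : chk 2187 12 1094 14797 TT0 TT2 (own 3) (Ls 3) u = true := by
  by_cases g0 : u < 81
  · exact e3_0 u (by omega) (by omega)
  by_cases g1 : u < 162
  · exact e3_1 u (by omega) (by omega)
  by_cases g2 : u < 243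
  · exact e3_2 u (by omega) (by omega)
  by_cases g3 : u < 324
  · exact e3_3 u (by omega) (by omega)
  by_cases g4 : u < 405
  · exact e3_4 u (by omega) (by omega)
  by_cases g5 : u < 486
  · exact e3_5 u (by omega) (by omega)
  by_cases g6 : u < 567
  · exact e3_6 u (by omega) (by omega)
  by_cases g7 : u < 648
  · exact e3_7 u (by omega) (by omega)
  exact e3_8 u (by omega) (by omega)

theorem all5 (u : ℕ) (h : u < 729) : chk 2187 12 1094 14797 TT0 TT2 (own 5) (Ls 5) u = true := by
  by_cases g0 : u < 81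
  · exact e5_0 u (by omega) (by omega)
  by_cases g1 : u < 162
  · exact e5_1 u (by omega) (by omega)
  by_cases g2 : u < 243
  · exact e5_2 u (by omega) (by omega)
  by_cases g3 : u < 324
  · exact e5_3 u (by omega) (by omega)
  by_cases g4 : u < 405
  · exact e5_4 u (by omega) (by omega)
  by_cases g5 : u < 486
  · exact e5_5 u (by omega) (by omega)
  by_cases g6 : u < 567
  · exact e5_6 u (by omega) (by omega)
  by_cases g7 : u < 648
  · exact e5_7 u (by omega) (by omega)
  exact e5_8 u (by omega) (by omega)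

theorem all6 (u : ℕ) (h : u < 729) : chk 2187 12 1094 14797 TT0 TT2 (own 6) (Ls 6) u = true := by
  by_cases g0 : u < 81
  · exact e6_0 u (by omega) (by omega)
  by_cases g1 : u < 162
  · exact e6_1 u (by omega) (by omega)
  by_cases g2 : u < 243
  · exact e6_2 u (by omega) (by omega)
  by_cases g3 : u < 324
  · exact e6_3 u (by omega) (by omega)
  by_cases g4 : u < 405
  · exact e6_4 u (by omega) (by omega)
  by_cases g5 : u < 486
  · exact e6_5 u (by omega) (by omega)
  by_cases g6 : u < 567
  · exact e6_6 u (by omega) (by omega)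
  by_cases g7 : u < 648
  · exact e6_7 u (by omega) (by omega)
  exact e6_8 u (by omega) (by omega)

theorem all8 (u : ℕ) (h : u < 729) : chk 2187 12 1094 14797 TT0 TT2 (own 8) (Ls 8) u = true := by
  by_cases g0 : u < 81
  · exact e8_0 u (by omega) (by omega)
  by_cases g1 : u < 162
  · exact e8_1 u (by omega) (by omega)
  by_cases g2 : u < 243
  · exact e8_2 u (by omega) (by omega)
  by_cases g3 : u < 324
  · exact e8_3 u (by omega) (by omega)
  by_cases g4 : u < 405
  · exact e8_4 u (by omega) (by omega)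
  by_cases g5 : u < 486
  · exact e8_5 u (by omega) (by omega)
  by_cases g6 : u < 567
  · exact e8_6 u (by omega) (by omega)
  by_cases g7 : u < 648
  · exact e8_7 u (by omega) (by omega)
  exact e8_8 u (by omega) (by omega)

theorem allchk : ∀ r, r < 9 → r % 3 ≠ 1 → ∀ u0, u0 < 3 ^ 6 →
    chk 2187 12 1094 14797 TT0 TT2 (own r) (Ls r) u0 = true := by
  intro r hr hr3 u hu
  have hu' : u < 729 := by norm_num at hu; exact hu
  interval_cases r
  · exact all0 u hu'
  · omega
  · exact all2 u hu'
  · exact all3 u hu'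
  · omega
  · exact all5 u hu'
  · exact all6 u hu'
  · omega
  · exact all8 u hu'

end H5KL
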