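import Pool.Agent.Helper5.KL.D14.D0_0
import Pool.Agent.Helper5.KL.D14.D0_1
import Pool.Agent.Helper5.KL.D14.D0_2
import Pool.Agent.Helper5.KL.D14.D0_3
import Pool.Agent.Helper5.KL.D14.D0_4
import Pool.Agent.Helper5.KL.D14.D0_5
import Pool.Agent.Helper5.KL.D14.D0_6
import Pool.Agent.Helper5.KL.D14.D0_7
import Pool.Agent.Helper5.KL.D14.D0_8
import Pool.Agent.Helper5.KL.D14.D0_9
import Pool.Agent.Helper5.KL.D14.D0_10
import Pool.Agent.Helper5.KL.D14.D0_11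
import Pool.Agent.Helper5.KL.D14.D0_12
import Pool.Agent.Helper5.KL.D14.D0_13
import Pool.Agent.Helper5.KL.D14.D0_14
import Pool.Agent.Helper5.KL.D14.D0_15
import Pool.Agent.Helper5.KL.D14.D0_16
import Pool.Agent.Helper5.KL.D14.D0_17
import Pool.Agent.Helper5.KL.D14.D0_18
import Pool.Agent.Helper5.KL.D14.D0_19
import Pool.Agent.Helper5.KL.D14.D0_20
import Pool.Agent.Helper5.KL.D14.D0_21
import Pool.Agent.Helper5.KL.D14.D0_22
import Pool.Agent.Helper5.KL.D14.D0_23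
import Pool.Agent.Helper5.KL.D14.D0_24
import Pool.Agent.Helper5.KL.D14.D0_25
import Pool.Agent.Helper5.KL.D14.D0_26
import Pool.Agent.Helper5.KL.D14.D2_0
import Pool.Agent.Helper5.KL.D14.D2_1
import Pool.Agent.Helper5.KL.D14.D2_2
import Pool.Agent.Helper5.KL.D14.D2_3
import Pool.Agent.Helper5.KL.D14.D2_4
import Pool.Agent.Helper5.KL.D14.D2_5
import Pool.Agent.Helper5.KL.D14.D2_6
import Pool.Agent.Helper5.KL.D14.D2_7
import Pool.Agent.Helper5.KL.D14.D2_8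
import Pool.Agent.Helper5.KL.D14.D2_9
import Pool.Agent.Helper5.KL.D14.D2_10
import Pool.Agent.Helper5.KL.D14.D2_11
import Pool.Agent.Helper5.KL.D14.D2_12
import Pool.Agent.Helper5.KL.D14.D2_13
import Pool.Agent.Helper5.KL.D14.D2_14
import Pool.Agent.Helper5.KL.D14.D2_15
import Pool.Agent.Helper5.KL.D14.D2_16
import Pool.Agent.Helper5.KL.D14.D2_17
import Pool.Agent.Helper5.KL.D14.D2_18
import Pool.Agent.Helper5.KL.D14.D2_19
import Pool.Agent.Helper5.KL.D14.D2_20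
import Pool.Agent.Helper5.KL.D14.D2_21
import Pool.Agent.Helper5.KL.D14.D2_22
import Pool.Agent.Helper5.KL.D14.D2_23
import Pool.Agent.Helper5.KL.D14.D2_24
import Pool.Agent.Helper5.KL.D14.D2_25
import Pool.Agent.Helper5.KL.D14.D2_26

/-! # The table (generated), helper5, project KL -/

noncomputable section

namespace H5KL

/-- the table for residue 0 -/
def TT0 : Tr := (.nd (.nd (.nd t0_0 t0_9 t0_18) (.nd t0_3 t0_12 t0_21) (.nd t0_6 t0_15 t0_24)) (.nd (.nd t0_1 t0_10 t0_19) (.nd t0_4 t0_13 t0_22) (.nd t0_7 t0_16 t0_25)) (.nd (.nd t0_2 t0_11 t0_20) (.nd t0_5 t0_14 t0_23) (.nd t0_8 t0_17 t0_26)))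
/-- the table for residue 2 -/
def TT2 : Tr := (.nd (.nd (.nd t2_0 t2_9 t2_18) (.nd t2_3 t2_12 t2_21) (.nd t2_6 t2_15 t2_24)) (.nd (.nd t2_1 t2_10 t2_19) (.nd t2_4 t2_13 t2_22) (.nd t2_7 t2_16 t2_25)) (.nd (.nd t2_2 t2_11 t2_20) (.nd t2_5 t2_14 t2_23) (.nd t2_8 t2_17 t2_26)))

lemma isD0 : isD TT0 6 = true := by decide +kernel

lemma isD2 : isD TT2 6 = true := by decide +kernel

end H5KL
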